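import Pool.Agent.H567.PP.Stm4
import Pool.Graph.R_seed8.Y662.GJ.JGauss

/-!
# Project PP (helper567), PP-21: Jacobi sums and the conductor of the quotient of the two characters
-/

set_option autoImplicit false

namespace Pool.Agent.H263.PP

open Finset
open Pool.Agent.Y662.GJ (fs conv_bound unit_avg sum_char_sq fs_char_le)

section

variable {q : ℕ} [NeZero q]

/-- the sum over the units -/
theorem jacf_units (f : ZMod q → ℂ) (hf : ∀ l, ¬ IsUnit l → f l = 0) :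
    ∑ l : ZMod q, f l = ∑ u : (ZMod q)ˣ, f (u : ZMod q) := by
  have h1 : ∑ l ∈ (univ : Finset (ZMod q)ˣ).image (fun u : (ZMod q)ˣ => (u : ZMod q)), f l =
      ∑ l : ZMod q, f l := by
    refine Finset.sum_subset (Finset.subset_univ _) ?_
    intro l _ hl
    refine hf l ?_
    intro ⟨u, hu⟩
    exact hl (Finset.mem_image.mpr ⟨u, Finset.mem_univ _, hu⟩)
  rw [← h1, Finset.sum_image (fun u _ v _ h => Units.ext h)]

/-- the shifted sum -/
noncomputable def jacf_K (χ ξ : DirichletCharacter ℂ q) (a t : ZMod q) : ℂ :=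
  ∑ u : ZMod q, ξ u * χ (a * u - t)

/-- dependence on the shift -/
theorem jacf_K_unit (χ ξ : DirichletCharacter ℂ q) (a t : ZMod q) (u : (ZMod q)ˣ) :
    ‖jacf_K χ ξ a ((u : ZMod q) * t)‖ = ‖jacf_K χ ξ a t‖ := by
  unfold jacf_K
  rw [← Equiv.sum_comp (Units.mulLeft u)]
  have : ∀ v, ξ ((u : ZMod q) * v) * χ (a * ((u : ZMod q) * v) - (u : ZMod q) * t) =
      ξ (u : ZMod q) * χ (u : ZMod q) * (ξ v * χ (a * v - t)) := by
    intro v
    have e : a * ((u : ZMod q) * v) - (u : ZMod q) * t = (u : ZMod q) * (a * v - t) := by ring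
    rw [e, map_mul, map_mul]
    ring
  simp only [Units.mulLeft_apply, this]
  rw [← Finset.mul_sum, norm_mul, norm_mul, DirichletCharacter.unit_norm_eq_one,
    DirichletCharacter.unit_norm_eq_one, one_mul, one_mul]

/-- the shifted sum is a convolution -/
theorem jacf_K_conv (χ ξ : DirichletCharacter ℂ q) (a t : ZMod q) :
    jacf_K χ ξ a t = ∑ l : ZMod q, (∑ u ∈ univ.filter (fun u : ZMod q => a * u = l), ξ u) *
      χ (-(t - l)) := by
  unfold jacf_K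
  have h1 : ∑ u : ZMod q, ξ u * χ (a * u - t) =
      ∑ l : ZMod q, ∑ u ∈ univ.filter (fun u : ZMod q => a * u = l), ξ u * χ (a * u - t) := by
    rw [Finset.sum_fiberwise]
  rw [h1]
  refine Finset.sum_congr rfl fun l _ => ?_
  rw [Finset.sum_mul]
  refine Finset.sum_congr rfl fun u hu => ?_
  rw [(Finset.mem_filter.mp hu).2, neg_sub]

/-- the Fourier transform of the push-forward -/
theorem jacf_fs (ξ : DirichletCharacter ℂ q) (a k : ZMod q) :
    fs (fun l => ∑ u ∈ univ.filter (fun u : ZMod q => a * u = l), ξ u) k =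
      fs (fun l => ξ l) (a * k) := by
  unfold fs
  have h1 : ∑ u : ZMod q, ξ u * (ZMod.stdAddChar (u * (a * k)) : ℂ) =
      ∑ l : ZMod q, ∑ u ∈ univ.filter (fun u : ZMod q => a * u = l),
        ξ u * (ZMod.stdAddChar (u * (a * k)) : ℂ) := by
    rw [Finset.sum_fiberwise]
  rw [h1]
  refine Finset.sum_congr rfl fun l _ => ?_
  rw [Finset.sum_mul]
  refine Finset.sum_congr rfl fun u hu => ?_
  have h2 : u * (a * k) = l * k := by
    rw [← (Finset.mem_filter.mp hu).2]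
    ring
  rw [h2]

/-- the Jacobi sum as a shifted sum -/
theorem jacf_eq (χ ξ : DirichletCharacter ℂ q) (a : ZMod q) :
    ∑ l : ZMod q, (χ * ξ)⁻¹ l * χ (a - l) = jacf_K χ ξ a 1 := by
  unfold jacf_K
  rw [jacf_units (fun l => (χ * ξ)⁻¹ l * χ (a - l)) (fun l hl => by
      rw [MulChar.map_nonunit _ hl, zero_mul]),
    jacf_units (fun u => ξ u * χ (a * u - 1)) (fun l hl => by
      rw [MulChar.map_nonunit _ hl, zero_mul]),
    ← Equiv.sum_comp (Equiv.inv (ZMod q)ˣ)]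
  refine Finset.sum_congr rfl fun u _ => ?_
  show (χ * ξ)⁻¹ ((u⁻¹ : (ZMod q)ˣ) : ZMod q) * χ (a - ((u⁻¹ : (ZMod q)ˣ) : ZMod q)) =
    ξ (u : ZMod q) * χ (a * (u : ZMod q) - 1)
  have hu : (u : ZMod q) * ((u⁻¹ : (ZMod q)ˣ) : ZMod q) = 1 := Units.mul_inv u
  have hχ : χ (u : ZMod q) * χ ((u⁻¹ : (ZMod q)ˣ) : ZMod q) = 1 := by
    rw [← map_mul, hu, map_one]
  have hξ : ξ (u : ZMod q) * ξ ((u⁻¹ : (ZMod q)ˣ) : ZMod q) = 1 := by
    rw [← map_mul, hu, map_one]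
  have e1 : (χ * ξ)⁻¹ ((u⁻¹ : (ZMod q)ˣ) : ZMod q) = χ (u : ZMod q) * ξ (u : ZMod q) := by
    rw [MulChar.inv_apply_eq_inv', MulChar.mul_apply]
    refine inv_eq_of_mul_eq_one_left ?_
    linear_combination (ξ (u : ZMod q) * ξ ((u⁻¹ : (ZMod q)ˣ) : ZMod q)) * hχ + hξ
  have e2 : a * (u : ZMod q) - 1 = (u : ZMod q) * (a - ((u⁻¹ : (ZMod q)ˣ) : ZMod q)) := by
    linear_combination hu
  rw [e1, e2, map_mul]
  ring

theorem jacf_main (χ ξ : DirichletCharacter ℂ q) (a : ZMod q) :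
    ‖∑ l : ZMod q, (χ * ξ)⁻¹ l * χ (a - l)‖ ≤
      q * (1 + Real.log q) * Real.sqrt (1 / (ξ.conductor : ℝ)) := by
  have hr0 : (0 : ℝ) < ξ.conductor := by exact_mod_cast Nat.pos_of_ne_zero ξ.conductor_ne_zero
  have hq0 : (1 : ℝ) ≤ q := by exact_mod_cast NeZero.pos q
  have hlog : 0 ≤ Real.log q := Real.log_nonneg hq0
  obtain ⟨M, hM⟩ : ∃ M : ℝ, M = q / Real.sqrt ξ.conductor * (1 + Real.log q) := ⟨_, rfl⟩
  have hM0 : 0 ≤ M := by
    rw [hM]
    positivity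
  have h1 := conv_bound (fun l => ∑ u ∈ univ.filter (fun u : ZMod q => a * u = l), ξ u)
    (fun m => χ (-m)) M (fun k => by
      rw [jacf_fs, hM]
      exact fs_char_le q ξ (a * k))
  have h2 : ∑ l : ZMod q, ‖χ (-l)‖ ^ 2 = (q.totient : ℝ) := by
    rw [← sum_char_sq χ]
    exact Equiv.sum_comp (Equiv.neg (ZMod q)) (fun l => ‖χ l‖ ^ 2)
  rw [h2] at h1
  have h3 : ∑ b : ZMod q, ‖jacf_K χ ξ a b‖ ^ 2 ≤ M ^ 2 * (q.totient : ℝ) := by
    refine le_trans (le_of_eq ?_) h1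
    refine Finset.sum_congr rfl fun b _ => ?_
    rw [jacf_K_conv]
  have h4 := unit_avg (fun b : ZMod q => ‖jacf_K χ ξ a b‖ ^ 2) (fun b => by positivity) 1
    (fun u => by simp only [jacf_K_unit])
  have hgcd : Nat.gcd (1 : ZMod q).val q = 1 := by
    have h5 : Nat.gcd (1 : ZMod q).val q ∣ 1 := by
      have h6 := Nat.gcd_dvd_right (1 : ZMod q).val q
      have h7 := Nat.gcd_dvd_left (1 : ZMod q).val q
      rcases Nat.lt_or_ge 1 q with hq1 | hq1
      · have : Fact (1 < q) := ⟨hq1⟩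
        rwa [ZMod.val_one] at h7 ⊢
      · have h8 : q = 1 := le_antisymm hq1 (NeZero.pos q)
        exact h8 ▸ h6
    exact Nat.dvd_one.1 h5
  rw [hgcd, Nat.cast_one, one_mul] at h4
  have hφ : (0 : ℝ) < q.totient := by exact_mod_cast Nat.totient_pos.mpr (NeZero.pos q)
  have h5 : ‖jacf_K χ ξ a 1‖ ^ 2 ≤ M ^ 2 := by
    refine le_of_mul_le_mul_left ?_ hφ
    calc (q.totient : ℝ) * ‖jacf_K χ ξ a 1‖ ^ 2 ≤ _ := h4
      _ ≤ M ^ 2 * (q.totient : ℝ) := h3
      _ = _ := by ring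
  have h6 : ‖jacf_K χ ξ a 1‖ ≤ M := le_of_sq_le_sq h5 hM0
  rw [jacf_eq]
  refine h6.trans (le_of_eq ?_)
  rw [hM, Real.sqrt_div zero_le_one, Real.sqrt_one]
  ring

end

theorem jacf : Pool.Agent.H567.PP.S_JACF := by
  intro q _ χ ξ a
  exact jacf_main χ ξ a

end Pool.Agent.H263.PP
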