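import Pool.Agent.H567.PP.Stm2

/-!
# Project PP (helper567), part (14): primes in an interval (helper263)
-/

set_option autoImplicit false

namespace Pool.Agent.H263.PP

open Finset Filter
open Pool.Agent.helper24_UT (tw)
open Pool.Agent.H567.PP
open ArithmeticFunction (vonMangoldt)

theorem norm_tw (t x : ℝ) : ‖tw t x‖ = 1 := by
  unfold tw Pool.Agent.H376R2.MR.er
  exact Complex.norm_exp_ofReal_mul_I _

theorem norm_f {q : ℕ} (χ : DirichletCharacter ℂ q) (t : ℝ) (n : ℕ) :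
    ‖χ (n : ZMod q) * tw t n‖ ≤ 1 := by
  rw [norm_mul, norm_tw, mul_one]
  exact χ.norm_le_one _

/-- the sums `∑ Λ(n) f(n)` -/
noncomputable def GG (f : ℕ → ℂ) (u : ℕ) : ℂ := ∑ n ∈ Icc 1 u, (vonMangoldt n : ℂ) * f n

theorem GG_succ (f : ℕ → ℂ) (u : ℕ) :
    GG f (u + 1) = GG f u + (vonMangoldt (u + 1) : ℂ) * f (u + 1) := by
  unfold GG
  rw [Finset.sum_Icc_succ_top (by omega)]

/-- the weights -/
noncomputable def ww (n : ℕ) : ℝ := (Real.log n)⁻¹

theorem ww_anti {m n : ℕ} (hm : 2 ≤ m) (hmn : m ≤ n) : ww n ≤ ww m := by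
  have h1 : (1 : ℝ) < m := by exact_mod_cast (by omega : 1 < m)
  have h2 : (m : ℝ) ≤ n := by exact_mod_cast hmn
  exact inv_anti₀ (Real.log_pos h1) (Real.log_le_log (by linarith) h2)

theorem ww_nonneg (n : ℕ) : 0 ≤ ww n := inv_nonneg.2 (Real.log_natCast_nonneg n)

theorem ww_le {m : ℕ} (hm : 2 ≤ m) : ww m ≤ 3 / 2 := by
  refine (ww_anti le_rfl hm).trans ?_
  have h := Real.log_two_gt_d9
  unfold ww
  push_cast
  rw [inv_le_comm₀ (by linarith) (by norm_num)]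
  norm_num
  linarith

theorem parts (f : ℕ → ℂ) {a y : ℕ} (ha : 1 ≤ a) (hay : a ≤ y) {M : ℝ}
    (hM : ∀ u ≤ y, ‖GG f u‖ ≤ M) :
    ‖(∑ n ∈ Ioc a y, (ww n : ℂ) * ((vonMangoldt n : ℂ) * f n)) - (ww (y + 1) : ℂ) * GG f y +
      (ww (a + 1) : ℂ) * GG f a‖ ≤ M * (ww (a + 1) - ww (y + 1)) := by
  induction y, hay using Nat.le_induction with
  | base =>
    rw [Finset.Ioc_self, Finset.sum_empty]
    simp
  | succ y hay ih =>
    have ih' := ih (fun u hu => hM u (by omega))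
    rw [Finset.sum_Ioc_succ_top (by omega)]
    have h1 := GG_succ f y
    have e : (∑ n ∈ Ioc a y, (ww n : ℂ) * ((vonMangoldt n : ℂ) * f n)) +
        (ww (y + 1) : ℂ) * ((vonMangoldt (y + 1) : ℂ) * f (y + 1)) -
        (ww (y + 1 + 1) : ℂ) * GG f (y + 1) + (ww (a + 1) : ℂ) * GG f a =
        ((∑ n ∈ Ioc a y, (ww n : ℂ) * ((vonMangoldt n : ℂ) * f n)) - (ww (y + 1) : ℂ) * GG f y +
      (ww (a + 1) : ℂ) * GG f a) + ((ww (y + 1) - ww (y + 1 + 1) : ℝ) : ℂ) * GG f (y + 1) := by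
      rw [h1]
      push_cast
      ring
    rw [e]
    refine (norm_add_le _ _).trans ?_
    have h2 : ‖((ww (y + 1) - ww (y + 1 + 1) : ℝ) : ℂ) * GG f (y + 1)‖ ≤
        (ww (y + 1) - ww (y + 1 + 1)) * M := by
      have h3 : 0 ≤ ww (y + 1) - ww (y + 1 + 1) := by
        have := ww_anti (m := y + 1) (n := y + 1 + 1) (by omega) (by omega)
        linarith
      rw [norm_mul, Complex.norm_real, Real.norm_eq_abs, abs_of_nonneg h3]
      exact mul_le_mul_of_nonneg_left (hM (y + 1) le_rfl) h3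
    linarith

theorem pint_abs (f : ℕ → ℂ) (hf : ∀ n, ‖f n‖ ≤ 1) {x y : ℕ} (hxy : x ≤ y) {M : ℝ}
    (hM : ∀ u ≤ y, ‖GG f u‖ ≤ M) :
    ‖∑ p ∈ (Ioc x y).filter Nat.Prime, f p‖ ≤ 3 * M + 3 * (Real.sqrt y * Real.log y) := by
  have hM0 : 0 ≤ M := (norm_nonneg _).trans (hM 0 (Nat.zero_le _))
  have hlog : 0 ≤ Real.log y := Real.log_natCast_nonneg y
  rcases Nat.eq_zero_or_pos y with hy | hy
  · subst hy
    obtain rfl : x = 0 := by omega
    simp
    exact hM0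
  obtain ⟨a, ha⟩ : ∃ a, a = max x 1 := ⟨_, rfl⟩
  have ha1 : 1 ≤ a := by omega
  have hay : a ≤ y := by omega
  have hset : (Ioc x y).filter Nat.Prime = (Ioc a y).filter Nat.Prime := by
    ext p
    simp only [Finset.mem_filter, Finset.mem_Ioc]
    constructor
    · rintro ⟨⟨h1, h2⟩, h3⟩
      have := h3.two_le
      exact ⟨⟨by omega, h2⟩, h3⟩
    · rintro ⟨⟨h1, h2⟩, h3⟩
      exact ⟨⟨by omega, h2⟩, h3⟩
  rw [hset]
  have h1 := parts f ha1 hay hM
  have hsplit : ∑ n ∈ Ioc a y, (ww n : ℂ) * ((vonMangoldt n : ℂ) * f n) =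
      ∑ p ∈ (Ioc a y).filter Nat.Prime, f p +
      ∑ n ∈ (Ioc a y).filter (fun n => ¬ n.Prime), (ww n : ℂ) * ((vonMangoldt n : ℂ) * f n) := by
    rw [← Finset.sum_filter_add_sum_filter_not (Ioc a y) Nat.Prime]
    congr 1
    refine Finset.sum_congr rfl fun p hp => ?_
    have hp' := (Finset.mem_filter.1 hp).2
    rw [ArithmeticFunction.vonMangoldt_apply_prime hp', ← mul_assoc]
    have hne : Real.log p ≠ 0 := (Real.log_pos (by exact_mod_cast hp'.one_lt)).ne'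
    have e : (ww p : ℂ) * (Real.log p : ℂ) = 1 := by
      unfold ww
      rw [← Complex.ofReal_mul, inv_mul_cancel₀ hne, Complex.ofReal_one]
    rw [e, one_mul]
  have hnp : ‖∑ n ∈ (Ioc a y).filter (fun n => ¬ n.Prime),
      (ww n : ℂ) * ((vonMangoldt n : ℂ) * f n)‖ ≤ 3 * (Real.sqrt y * Real.log y) := by
    have h2 : ∀ n ∈ (Ioc a y).filter (fun n => ¬ n.Prime),
        ‖(ww n : ℂ) * ((vonMangoldt n : ℂ) * f n)‖ ≤ 3 / 2 * vonMangoldt n := by
      intro n hn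
      have hn1 := (Finset.mem_Ioc.1 (Finset.mem_filter.1 hn).1).1
      have h3 := ww_le (m := n) (by omega)
      have h4 := ww_nonneg n
      have h5 : 0 ≤ vonMangoldt n := ArithmeticFunction.vonMangoldt_nonneg
      rw [norm_mul, norm_mul, Complex.norm_real, Complex.norm_real, Real.norm_eq_abs,
        Real.norm_eq_abs, abs_of_nonneg h4, abs_of_nonneg h5]
      have h6 := hf n
      calc ww n * (vonMangoldt n * ‖f n‖) ≤ 3 / 2 * (vonMangoldt n * 1) := by gcongr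
        _ = 3 / 2 * vonMangoldt n := by ring
    refine (norm_sum_le _ _).trans ((Finset.sum_le_sum h2).trans ?_)
    rw [← Finset.mul_sum]
    have h3 : ∑ n ∈ (Ioc a y).filter (fun n => ¬ n.Prime), vonMangoldt n ≤
        Chebyshev.psi y - Chebyshev.theta y := by
      rw [Chebyshev.psi_sub_theta_eq_sum_not_prime, Nat.floor_natCast]
      apply Finset.sum_le_sum_of_subset_of_nonneg
      · intro n hn
        simp only [Finset.mem_filter, Finset.mem_Ioc] at hn ⊢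
        exact ⟨⟨by omega, hn.1.2⟩, hn.2⟩
      · intro n _ _
        exact ArithmeticFunction.vonMangoldt_nonneg
    have h4 := Chebyshev.psi_sub_theta_le (x := (y : ℝ)) (by exact_mod_cast hy)
    linarith
  have hw1 := ww_le (m := a + 1) (by omega)
  have hw2 := ww_nonneg (y + 1)
  have hw3 := ww_nonneg (a + 1)
  have hy1 : ‖(ww (y + 1) : ℂ) * GG f y‖ ≤ ww (y + 1) * M := by
    rw [norm_mul, Complex.norm_real, Real.norm_eq_abs, abs_of_nonneg hw2]
    exact mul_le_mul_of_nonneg_left (hM y le_rfl) hw2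
  have hy2 : ‖(ww (a + 1) : ℂ) * GG f a‖ ≤ ww (a + 1) * M := by
    rw [norm_mul, Complex.norm_real, Real.norm_eq_abs, abs_of_nonneg hw3]
    exact mul_le_mul_of_nonneg_left (hM a hay) hw3
  have e : ∑ p ∈ (Ioc a y).filter Nat.Prime, f p =
      ((∑ n ∈ Ioc a y, (ww n : ℂ) * ((vonMangoldt n : ℂ) * f n)) - (ww (y + 1) : ℂ) * GG f y +
      (ww (a + 1) : ℂ) * GG f a) + (ww (y + 1) : ℂ) * GG f y - (ww (a + 1) : ℂ) * GG f a -
      ∑ n ∈ (Ioc a y).filter (fun n => ¬ n.Prime), (ww n : ℂ) * ((vonMangoldt n : ℂ) * f n) := by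
    rw [hsplit]
    ring
  rw [e]
  refine (norm_sub_le _ _).trans ?_
  refine (add_le_add (norm_sub_le _ _) hnp).trans ?_
  have h5 := norm_add_le ((∑ n ∈ Ioc a y, (ww n : ℂ) * ((vonMangoldt n : ℂ) * f n)) -
    (ww (y + 1) : ℂ) * GG f y + (ww (a + 1) : ℂ) * GG f a) ((ww (y + 1) : ℂ) * GG f y)
  have h6 : 2 * (ww (a + 1) * M) ≤ 3 * M := by nlinarith
  nlinarith

theorem triv (f : ℕ → ℂ) (hf : ∀ n, ‖f n‖ ≤ 1) (u : ℕ) : ‖GG f u‖ ≤ (u : ℝ) ^ 2 := by
  have h1 : ∀ n ∈ Icc 1 u, ‖(vonMangoldt n : ℂ) * f n‖ ≤ u := by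
    intro n hn
    rw [Finset.mem_Icc] at hn
    have h5 : 0 ≤ vonMangoldt n := ArithmeticFunction.vonMangoldt_nonneg
    have h6 : vonMangoldt n ≤ Real.log n := ArithmeticFunction.vonMangoldt_le_log
    have h7 : Real.log n ≤ n := Real.log_le_self (Nat.cast_nonneg _)
    have h8 : (n : ℝ) ≤ u := by exact_mod_cast hn.2
    rw [norm_mul, Complex.norm_real, Real.norm_eq_abs, abs_of_nonneg h5]
    calc vonMangoldt n * ‖f n‖ ≤ vonMangoldt n * 1 := mul_le_mul_of_nonneg_left (hf n) h5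
      _ ≤ u := by linarith
  refine (norm_sum_le _ _).trans ((Finset.sum_le_sum h1).trans ?_)
  rw [Finset.sum_const, Nat.card_Icc, nsmul_eq_mul]
  simp
  exact le_of_eq (by ring)

theorem asym {η' : ℝ} (h0 : 0 < η') (h1 : η' ≤ 1 / 10) (K : ℕ) : ∃ L₀ : ℝ, 2 ≤ L₀ ∧ ∀ L ≥ L₀,
    Real.exp (2 * L ^ (1 - η')) * L ^ (K + 3) ≤ Real.exp (L ^ (1 - η' / 2)) ∧
    3 * L ^ (K + 2) ≤ Real.exp (L ^ (1 - η' / 2) / 2) := by
  have hs : 0 < 1 - η' / 2 := by linarith
  have a1 : ∀ᶠ L : ℝ in atTop, 4 ≤ L ^ (η' / 2) :=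
    (tendsto_rpow_atTop (by positivity)).eventually (eventually_ge_atTop 4)
  have a2 : ∀ᶠ L : ℝ in atTop, ‖Real.log L‖ ≤ 1 / (4 * ((K : ℝ) + 3)) * ‖L ^ (1 - η' / 2)‖ :=
    (isLittleO_log_rpow_atTop hs).bound (by positivity)
  have a3 : ∀ᶠ L : ℝ in atTop, 8 ≤ L ^ (1 - η' / 2) :=
    (tendsto_rpow_atTop hs).eventually (eventually_ge_atTop 8)
  obtain ⟨L₀, hL₀⟩ := eventually_atTop.1 (a1.and (a2.and a3))
  refine ⟨max L₀ 2, le_max_right _ _, fun L hL => ?_⟩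
  obtain ⟨b1, b2, b3⟩ := hL₀ L ((le_max_left _ _).trans hL)
  have hL2 : 2 ≤ L := (le_max_right _ _).trans hL
  have hL0 : 0 < L := by linarith
  have hlog : 0 ≤ Real.log L := Real.log_nonneg (by linarith)
  have hP : 0 < L ^ (1 - η' / 2) := Real.rpow_pos_of_pos hL0 _
  rw [Real.norm_eq_abs, Real.norm_eq_abs, abs_of_nonneg hlog, abs_of_pos hP] at b2
  have c1 : ((K : ℝ) + 3) * Real.log L ≤ L ^ (1 - η' / 2) / 4 := by
    have hK : (0 : ℝ) < (K : ℝ) + 3 := by positivity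
    have := mul_le_mul_of_nonneg_left b2 hK.le
    have e : ((K : ℝ) + 3) * (1 / (4 * ((K : ℝ) + 3)) * L ^ (1 - η' / 2)) =
      L ^ (1 - η' / 2) / 4 := by field_simp
    rwa [e] at this
  have c2 : 4 * L ^ (1 - η') ≤ L ^ (1 - η' / 2) := by
    have e : L ^ (1 - η' / 2) = L ^ (η' / 2) * L ^ (1 - η') := by
      rw [← Real.rpow_add hL0]
      congr 1
      ring
    rw [e]
    exact mul_le_mul_of_nonneg_right b1 (Real.rpow_pos_of_pos hL0 _).le
  have hpow : ∀ m : ℕ, L ^ m = Real.exp (m * Real.log L) := by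
    intro m
    rw [Real.exp_nat_mul, Real.exp_log hL0]
  constructor
  · rw [hpow, ← Real.exp_add]
    apply Real.exp_le_exp.2
    push_cast
    linarith
  · rw [hpow]
    have e3 : (3 : ℝ) ≤ Real.exp 2 := by
      have := Real.add_one_le_exp (2 : ℝ)
      linarith
    calc 3 * Real.exp (((K + 2 : ℕ) : ℝ) * Real.log L) ≤
          Real.exp 2 * Real.exp (((K + 2 : ℕ) : ℝ) * Real.log L) :=
          mul_le_mul_of_nonneg_right e3 (Real.exp_pos _).le
      _ = Real.exp (2 + ((K + 2 : ℕ) : ℝ) * Real.log L) := (Real.exp_add _ _).symm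
      _ ≤ Real.exp (L ^ (1 - η' / 2) / 2) := by
          apply Real.exp_le_exp.2
          push_cast
          linarith

theorem pint : S_PPR → S_PINT := by
  rintro ⟨η', h0, h1, H⟩
  refine ⟨η' / 2, by positivity, by linarith, fun B K => ?_⟩
  obtain ⟨L₁, hL₁, H1⟩ := H 1 B (K + 3)
  obtain ⟨L₂, hL₂, H2⟩ := asym h0 h1 K
  refine ⟨max L₁ L₂, hL₁.trans (le_max_left _ _), fun L hL q χ t hχ hrad hq8 hq ht x y hxy hy hyL => ?_⟩
  have hLL1 : L₁ ≤ L := (le_max_left _ _).trans hL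
  have hLL2 : L₂ ≤ L := (le_max_right _ _).trans hL
  have hL2 : 2 ≤ L := hL₁.trans hLL1
  have hL0 : 0 < L := by linarith
  obtain ⟨c1, c2⟩ := H2 L hLL2
  have hyr : 0 < (y : ℝ) := lt_of_lt_of_le (Real.exp_pos _) hy
  have hLK : 0 < L ^ (K + 3) := by positivity
  have hM : ∀ u ≤ y, ‖GG (fun n => χ (n : ZMod q) * tw t n) u‖ ≤ y / L ^ (K + 3) := by
    intro u hu
    have hur : (u : ℝ) ≤ y := by exact_mod_cast hu
    rcases le_or_gt (Real.exp (L ^ (1 - η'))) (u : ℝ) with h | h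
    · have h2 := H1 L hLL1 q χ t hχ hrad hq8 (by rw [Nat.cast_one, one_mul]; exact hq)
        (by rw [Nat.cast_one, one_mul]; exact ht) u h (hur.trans hyL)
      refine le_trans h2 ?_
      gcongr
    · refine (triv _ (norm_f χ t) u).trans ?_
      rw [le_div_iff₀ hLK]
      have h3 : (u : ℝ) ^ 2 ≤ Real.exp (2 * L ^ (1 - η')) := by
        have h4 : Real.exp (2 * L ^ (1 - η')) = Real.exp (L ^ (1 - η')) ^ 2 := by
          rw [← Real.exp_nat_mul]
          norm_num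
        rw [h4]
        exact pow_le_pow_left₀ (Nat.cast_nonneg _) h.le 2
      calc (u : ℝ) ^ 2 * L ^ (K + 3) ≤ Real.exp (2 * L ^ (1 - η')) * L ^ (K + 3) :=
            mul_le_mul_of_nonneg_right h3 hLK.le
        _ ≤ y := c1.trans hy
  have h5 := pint_abs (fun n => χ (n : ZMod q) * tw t n) (norm_f χ t) hxy hM
  refine h5.trans ?_
  have hlogy : Real.log y ≤ L := by
    rw [← Real.log_exp L]
    exact Real.log_le_log hyr hyL
  have hsq : 3 * L ^ (K + 2) ≤ Real.sqrt y := by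
    apply Real.le_sqrt_of_sq_le
    refine le_trans ?_ hy
    have h6 : Real.exp (L ^ (1 - η' / 2)) = Real.exp (L ^ (1 - η' / 2) / 2) ^ 2 := by
      rw [← Real.exp_nat_mul]
      congr 1
      push_cast
      ring
    rw [h6]
    exact pow_le_pow_left₀ (by positivity) c2 2
  have hss : Real.sqrt y * Real.sqrt y = y := Real.mul_self_sqrt hyr.le
  have h7 : 3 * (Real.sqrt y * Real.log y) ≤ y / L ^ (K + 1) := by
    rw [le_div_iff₀ (by positivity)]
    calc 3 * (Real.sqrt y * Real.log y) * L ^ (K + 1) ≤ 3 * (Real.sqrt y * L) * L ^ (K + 1) := by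
          gcongr
      _ = Real.sqrt y * (3 * L ^ (K + 2)) := by ring
      _ ≤ Real.sqrt y * Real.sqrt y := by gcongr
      _ = y := hss
  have h8 : 3 * ((y : ℝ) / L ^ (K + 3)) ≤ 3 / 8 * (y / L ^ K) := by
    have e : (y : ℝ) / L ^ (K + 3) = (y / L ^ K) * (1 / L ^ 3) := by
      rw [pow_add]
      field_simp
    have e2 : 1 / L ^ 3 ≤ 1 / 8 := by
      apply one_div_le_one_div_of_le (by norm_num)
      calc (8 : ℝ) = 2 ^ 3 := by norm_num
        _ ≤ L ^ 3 := pow_le_pow_left₀ (by norm_num) hL2 3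
    have e3 : 0 ≤ (y : ℝ) / L ^ K := by positivity
    rw [e]
    nlinarith
  have h9 : (y : ℝ) / L ^ (K + 1) ≤ 1 / 2 * (y / L ^ K) := by
    have e : (y : ℝ) / L ^ (K + 1) = (y / L ^ K) * (1 / L) := by
      rw [pow_succ]
      field_simp
    have e2 : 1 / L ≤ 1 / 2 := one_div_le_one_div_of_le (by norm_num) hL2
    have e3 : 0 ≤ (y : ℝ) / L ^ K := by positivity
    rw [e]
    nlinarith
  have e3 : 0 ≤ (y : ℝ) / L ^ K := by positivity
  linarith

end Pool.Agent.H263.PP
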